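import Pool.Agent.Helper5.FRC.GoalsG

/-!
# Project FRC (MP_79b960_co), packet CLOSE
-/

set_option autoImplicit false

namespace Pool.Agent.Helper33.FRC.CLOSE

open Finset
open Pool.Agent.Helper5.FRC

variable {V : Type} [DecidableEq V]

/-- the pairing after the removal of the pair `z, w` -/
def t1 (t : V → V) (z w : V) (x : V) : V := if t x = z then t w else if t x = w then t z else t x

theorem mem2 (A : Finset V) (z w x : V) : x ∈ A \ {z, w} ↔ x ∈ A ∧ x ≠ z ∧ x ≠ w := by
  simp only [mem_sdiff, mem_insert, mem_singleton, not_or]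

theorem prg1 (A : Finset V) (t : V → V) (hA : Prg A t) (z w : V) (hz : z ∈ A) (hw : w ∈ A)
    (hzw : z ≠ w) : Prg (A \ {z, w}) (t1 t z w) := by
  have hzz := hA z hz
  have hww := hA w hw
  intro x hx
  rw [mem2] at hx
  obtain ⟨hxA, hxz, hxw⟩ := hx
  obtain ⟨h1, h2, h3⟩ := hA x hxA
  rw [mem2]
  by_cases c1 : t x = z
  · have e1 : t1 t z w x = t w := by simp [t1, c1]
    have ex : x = t z := by rw [← c1, h2]
    have hwz : t w ≠ z := by
      intro h
      apply hxw
      rw [ex, ← h, hww.2.1]
    have e2 : t1 t z w (t w) = t z := by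
      unfold t1
      rw [hww.2.1, if_neg hzw.symm, if_pos rfl]
    rw [e1, e2]
    refine ⟨⟨hww.1, hwz, hww.2.2⟩, ex.symm, ?_⟩
    rw [ex]
    intro h
    apply hzw
    rw [← hzz.2.1, ← h, hww.2.1]
  · by_cases c2 : t x = w
    · have e1 : t1 t z w x = t z := by simp [t1, c2, hzw.symm]
      have ex : x = t w := by rw [← c2, h2]
      have hzw' : t z ≠ w := by
        intro h
        apply hxz
        rw [ex, ← h, hzz.2.1]
      have e2 : t1 t z w (t z) = t w := by
        unfold t1
        rw [hzz.2.1, if_pos rfl]
      rw [e1, e2]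
      refine ⟨⟨hzz.1, hzz.2.2, hzw'⟩, ex.symm, ?_⟩
      rw [ex]
      intro h
      apply hzw
      rw [← hzz.2.1, h, hww.2.1]
    · have e1 : t1 t z w x = t x := by simp [t1, c1, c2]
      have e2 : t1 t z w (t x) = x := by
        unfold t1
        rw [h2, if_neg hxz, if_neg hxw]
      rw [e1, e2]
      exact ⟨⟨h1, c1, c2⟩, rfl, h3⟩

theorem cut1 (A : Finset V) (t : V → V) (hA : Prg A t) (z w : V) (hz : z ∈ A) (hw : w ∈ A)
    (hzw : z ≠ w) (K : Finset V) (hK : K ⊆ A \ {z, w}) :
    ∃ W : Finset V, (W = ∅ ∨ W = {z, w}) ∧ dm t (K ∪ W) = dm (t1 t z w) K := by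
  obtain ⟨z1, z2, z3⟩ := hA z hz
  obtain ⟨w1, w2, w3⟩ := hA w hw
  have hzK : z ∉ K := fun h => ((mem2 A z w z).1 (hK h)).2.1 rfl
  have hwK : w ∉ K := fun h => ((mem2 A z w w).1 (hK h)).2.2 rfl
  have hKA : ∀ x ∈ K, x ∈ A ∧ x ≠ z ∧ x ≠ w := fun x hx => (mem2 A z w x).1 (hK hx)
  -- the general point
  have gen : ∀ x ∈ K, x ≠ t z → x ≠ t w → t x ≠ z ∧ t x ≠ w ∧ t1 t z w x = t x := by
    intro x hx h1 h2
    have e := (hA x (hKA x hx).1).2.1
    have c1 : t x ≠ z := by
      intro h
      apply h1
      rw [← h, e]
    have c2 : t x ≠ w := by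
      intro h
      apply h2
      rw [← h, e]
    exact ⟨c1, c2, by simp [t1, c1, c2]⟩
  by_cases hc : t z = w
  · refine ⟨∅, Or.inl rfl, ?_⟩
    have htw : t w = z := by rw [← hc, z2]
    unfold dm
    rw [union_empty]
    congr 1
    apply filter_congr
    intro x hx
    obtain ⟨-, -, e⟩ := gen x hx (by rw [hc]; exact (hKA x hx).2.2)
      (by rw [htw]; exact (hKA x hx).2.1)
    rw [e]
  have hc' : t w ≠ z := by
    intro h
    apply hc
    rw [← h, w2]
  have exy : t z ≠ t w := by
    intro h
    apply hzw
    rw [← z2, h, w2]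
  have e1 : t1 t z w (t z) = t w := by
    unfold t1
    rw [z2, if_pos rfl]
  have e2 : t1 t z w (t w) = t z := by
    unfold t1
    rw [w2, if_neg hzw.symm, if_pos rfl]
  by_cases hx0 : t z ∈ K
  · refine ⟨{z, w}, Or.inr rfl, ?_⟩
    have mS : ∀ x, x ∈ K ∪ {z, w} ↔ x ∈ K ∨ x = z ∨ x = w := by
      intro x
      simp only [mem_union, mem_insert, mem_singleton]
    unfold dm
    by_cases hy0 : t w ∈ K
    · congr 1
      ext x
      rw [mem_filter, mem_filter, mS, mS]
      constructor
      · rintro ⟨h1, h2⟩
        push Not at h2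
        rcases h1 with h1 | h1 | h1
        · have n1 : x ≠ t z := by
            rintro rfl
            exact h2.2.1 z2
          have n2 : x ≠ t w := by
            rintro rfl
            exact h2.2.2 w2
          rw [(gen x h1 n1 n2).2.2]
          exact ⟨h1, h2.1⟩
        · subst h1
          exact absurd hx0 h2.1
        · subst h1
          exact absurd hy0 h2.1
      · rintro ⟨h1, h2⟩
        have n1 : x ≠ t z := by
          rintro rfl
          rw [e1] at h2
          exact h2 hy0
        have n2 : x ≠ t w := by
          rintro rfl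
          rw [e2] at h2
          exact h2 hx0
        obtain ⟨g1, g2, g3⟩ := gen x h1 n1 n2
        rw [g3] at h2
        refine ⟨Or.inl h1, ?_⟩
        push Not
        exact ⟨h2, g1, g2⟩
    · have f1 : (K ∪ {z, w}).filter (fun x => t x ∉ K ∪ {z, w}) =
          insert w (K.filter fun x => x ≠ t z ∧ t x ∉ K) := by
        ext x
        rw [mem_filter, mem_insert, mem_filter, mS, mS]
        constructor
        · rintro ⟨h1, h2⟩
          push Not at h2
          rcases h1 with h1 | h1 | h1
          · right
            refine ⟨h1, ?_, h2.1⟩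
            rintro rfl
            exact h2.2.1 z2
          · subst h1
            exact absurd hx0 h2.1
          · left
            exact h1
        · rintro (h1 | ⟨h1, h2, h3⟩)
          · subst h1
            refine ⟨Or.inr (Or.inr rfl), ?_⟩
            push Not
            exact ⟨hy0, hc', w3⟩
          · refine ⟨Or.inl h1, ?_⟩
            have n2 : x ≠ t w := by
              rintro rfl
              exact hy0 h1
            obtain ⟨g1, g2, g3⟩ := gen x h1 h2 n2
            push Not
            exact ⟨h3, g1, g2⟩
      have f2 : K.filter (fun x => t1 t z w x ∉ K) =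
          insert (t z) (K.filter fun x => x ≠ t z ∧ t x ∉ K) := by
        ext x
        rw [mem_filter, mem_insert, mem_filter]
        constructor
        · rintro ⟨h1, h2⟩
          by_cases n1 : x = t z
          · exact Or.inl n1
          · right
            have n2 : x ≠ t w := by
              rintro rfl
              exact hy0 h1
            rw [(gen x h1 n1 n2).2.2] at h2
            exact ⟨h1, n1, h2⟩
        · rintro (h1 | ⟨h1, h2, h3⟩)
          · subst h1
            rw [e1]
            exact ⟨hx0, hy0⟩
          · have n2 : x ≠ t w := by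
              rintro rfl
              exact hy0 h1
            rw [(gen x h1 h2 n2).2.2]
            exact ⟨h1, h3⟩
      rw [f1, f2, card_insert_of_notMem, card_insert_of_notMem]
      · intro h
        exact (mem_filter.1 h).2.1 rfl
      · intro h
        exact hwK (mem_filter.1 h).1
  · refine ⟨∅, Or.inl rfl, ?_⟩
    unfold dm
    rw [union_empty]
    congr 1
    apply filter_congr
    intro x hx
    have n1 : x ≠ t z := by
      rintro rfl
      exact hx0 hx
    by_cases n2 : x = t w
    · rw [n2, e2, w2]
      exact iff_of_true hwK hx0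
    · rw [(gen x hx n1 n2).2.2]

theorem main [Fintype V] (A Z : Finset V) (t p : V → V) (hA : Prg A t) (hZA : Z ⊆ A)
    (hZ : Prg Z p) : ∃ t' : V → V, Prg (A \ Z) t' ∧
      (∀ K ⊆ A \ Z, ∃ W ⊆ Z, (∀ z ∈ W, p z ∈ W) ∧ dm t (K ∪ W) = dm t' K) ∧
      (∀ U ⊆ A, (∀ x ∈ U, t x ∈ U) → (∀ x ∈ U, x ∈ Z → p x ∈ U) →
        ∀ x ∈ U \ Z, t' x ∈ U \ Z) := by
  induction hn : Z.card using Nat.strong_induction_on generalizing A Z t with
  | _ n ih =>
    rcases Z.eq_empty_or_nonempty with rfl | ⟨z, hz⟩
    · refine ⟨t, by rw [sdiff_empty]; exact hA, ?_, ?_⟩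
      · intro K _
        exact ⟨∅, Subset.refl _, by simp, by rw [union_empty]⟩
      · intro U _ h _ x hx
        rw [sdiff_empty] at hx ⊢
        exact h x hx
    · obtain ⟨hw, hwz, hne⟩ := hZ z hz
      set w := p z with hwdef
      have hzw : z ≠ w := hne.symm
      have hzA := hZA hz
      have hwA := hZA hw
      have hZ1 : Prg (Z \ {z, w}) p := by
        intro x hx
        rw [mem2] at hx
        obtain ⟨a, b, c⟩ := hZ x hx.1
        refine ⟨?_, b, c⟩
        rw [mem2]
        refine ⟨a, ?_, ?_⟩
        · intro h
          apply hx.2.2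
          rw [hwdef, ← h, b]
        · intro h
          apply hx.2.1
          rw [← hwz, ← h, b]
      have hsub : Z \ {z, w} ⊆ A \ {z, w} := sdiff_subset_sdiff hZA (Subset.refl _)
      have hcard : (Z \ {z, w}).card < n := by
        rw [← hn]
        apply card_lt_card
        refine ⟨sdiff_subset, fun h => ?_⟩
        exact ((mem2 Z z w z).1 (h hz)).2.1 rfl
      obtain ⟨t', h1, h2, h3⟩ := ih _ hcard (A \ {z, w}) (Z \ {z, w}) (t1 t z w)
        (prg1 A t hA z w hzA hwA hzw) hsub hZ1 rfl
      have hAZ : ∀ B : Finset V, (B \ {z, w}) \ (Z \ {z, w}) = B \ Z := by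
        intro B
        ext x
        simp only [mem_sdiff, mem_insert, mem_singleton, not_or, not_and, not_not]
        constructor
        · rintro ⟨⟨a, b, c⟩, d⟩
          exact ⟨a, fun hxZ => c (d hxZ b)⟩
        · rintro ⟨a, b⟩
          refine ⟨⟨a, ?_, ?_⟩, fun hxZ => absurd hxZ b⟩
          · rintro rfl
            exact b hz
          · rintro rfl
            exact b hw
      rw [hAZ] at h1 h2
      refine ⟨t', h1, ?_, ?_⟩
      · intro K hK
        obtain ⟨W, hW, hWp, hWd⟩ := h2 K hK
        have hKW : K ∪ W ⊆ A \ {z, w} := by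
          apply union_subset
          · intro x hx
            have hx' := mem_sdiff.1 (hK hx)
            rw [mem2]
            refine ⟨hx'.1, ?_, ?_⟩
            · rintro rfl
              exact hx'.2 hz
            · rintro rfl
              exact hx'.2 hw
          · exact hW.trans hsub
        obtain ⟨W1, hW1, hd⟩ := cut1 A t hA z w hzA hwA hzw (K ∪ W) hKW
        refine ⟨W ∪ W1, ?_, ?_, ?_⟩
        · apply union_subset
          · exact hW.trans sdiff_subset
          · rcases hW1 with rfl | rfl
            · exact empty_subset _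
            · intro x hx
              simp only [mem_insert, mem_singleton] at hx
              rcases hx with rfl | rfl
              · exact hz
              · exact hw
        · intro x hx
          rw [mem_union] at hx ⊢
          rcases hx with hx | hx
          · exact Or.inl (hWp x hx)
          · right
            rcases hW1 with rfl | rfl
            · simp at hx
            · simp only [mem_insert, mem_singleton] at hx ⊢
              rcases hx with rfl | rfl
              · right
                rfl
              · left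
                exact hwz
        · rw [← union_assoc, hd, hWd]
      · intro U hU ht hp x hx
        have hUs : U \ {z, w} ⊆ A \ {z, w} := sdiff_subset_sdiff hU (Subset.refl _)
        have key := h3 (U \ {z, w}) hUs ?_ ?_ x (by rw [hAZ]; exact hx)
        · rw [hAZ] at key
          exact key
        · intro y hy
          have hy1 := (prg1 A t hA z w hzA hwA hzw y (hUs hy)).1
          rw [mem2] at hy hy1 ⊢
          refine ⟨?_, hy1.2⟩
          have hty := ht y hy.1
          unfold t1
          split_ifs with c1 c2
          · rw [c1] at hty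
            have := hp z hty hz
            exact ht w this
          · rw [c2] at hty
            have := hp w hty hw
            rw [hwz] at this
            exact ht z this
          · exact hty
        · intro y hy hyZ
          have hy2 := (hZ1 y hyZ).1
          rw [mem2] at hy hy2 ⊢
          exact ⟨hp y hy.1 ((mem2 Z z w y).1 hyZ).1, hy2.2⟩

theorem t : CloseStmt := by
  intro V _ _ A Z t p h1 h2 h3
  exact main A Z t p h1 h2 h3

end Pool.Agent.Helper33.FRC.CLOSE
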